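import Pool.Agent.helper27.PC2.Stmt2
import Pool.Agent.helper93.PC.SD

/-!
# PC project, second half, module CO: `Low 1 1` does not kill the vectors at `q = -1`
-/

namespace Pool.Agent.helper27.PC

open Module Polynomial Finset

/-! ### the numerical recursion -/

/-- the sign of the type -/
def CO_e (t : Bool) : ℤ := if t then 1 else -1

/-- normalised one column coordinates of the vector (list reversed) -/
def CO_f (t : Bool) : List ℕ → ℕ → ℤ
  | [], i => if i = 0 then 1 else 0
  | b :: l, i => CO_e t * (-1) ^ l.sum * (if b ≤ i then (-1) ^ (i - b) * CO_f t l (i - b) else 0) +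
      (-1) ^ i * CO_f t l i

/-- normalised one column coordinates of `Low 1 1` of the vector (list reversed) -/
def CO_g (t : Bool) : List ℕ → ℕ → ℤ
  | [], _ => 0
  | b :: l, i => CO_e t * (-1) ^ l.sum * (if b ≤ i then (-1) ^ (i - b) * CO_g t l (i - b) else 0) -
      (-1) ^ i * CO_g t l i +
      2 * (CO_e t * (-1) ^ l.sum * (if b ≤ i + 1 then (-1) ^ (i + 1 - b) * CO_f t l (i + 1 - b) else 0) +
        (-1) ^ i * CO_f t l i) -
      (if b = 1 ∧ t = true then 2 * (-1) ^ l.sum * CO_f t l i else 0)

theorem CO_f0 (t : Bool) : ∀ l : List ℕ, (∀ b ∈ l, 1 ≤ b) → CO_f t l 0 = 1 := by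
  intro l
  induction l with
  | nil => intro _; simp [CO_f]
  | cons b l ih =>
    intro h
    have hb := h b (by simp)
    rw [CO_f, ih (fun x hx => h x (by simp [hx])), if_neg (by omega)]
    simp

theorem CO_fz (t : Bool) {c : ℕ} : ∀ l : List ℕ, (∀ b ∈ l, c ≤ b) → ∀ i, 1 ≤ i → i < c →
    CO_f t l i = 0 := by
  intro l
  induction l with
  | nil => intro _ i hi _; rw [CO_f, if_neg (by omega)]
  | cons b l ih =>
    intro h i h1 h2
    have hb := h b (by simp)
    rw [CO_f, ih (fun x hx => h x (by simp [hx])) i h1 h2, if_neg (by omega)]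
    simp

theorem CO_sq (a : ℕ) : (-1 : ℤ) ^ a * (-1) ^ a = 1 := by
  rw [← mul_pow]; simp

theorem CO_pe (m : ℕ) : (-1 : ℤ) ^ m = if Even m then 1 else -1 := by
  split_ifs with h
  · exact h.neg_one_pow
  · exact (Nat.not_even_iff_odd.1 h).neg_one_pow

/-- sorted lists with largest element equal to a lower bound -/
theorem CO_rep {c : ℕ} {l : List ℕ} (h : ∀ b ∈ l, c ≤ b) (h' : ∀ b ∈ l, b ≤ c) :
    l = List.replicate l.length c :=
  List.eq_replicate_of_mem fun b hb => le_antisymm (h' b hb) (h b hb)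

theorem CO_gs (t : Bool) {c b : ℕ} (hc : 2 ≤ c) (hb : c ≤ b) (l : List ℕ) :
    CO_g t (b :: l) (c - 1) = (-1) ^ c * CO_g t l (c - 1) +
      2 * (CO_e t * (-1) ^ l.sum * (if b = c then CO_f t l 0 else 0) +
        (-1) ^ (c - 1) * CO_f t l (c - 1)) := by
  rw [CO_g, if_neg (by omega : ¬ b ≤ c - 1), if_neg (show ¬ (b = 1 ∧ t = true) by omega)]
  have e : (-1 : ℤ) ^ c = - (-1) ^ (c - 1) := by
    conv_lhs => rw [show c = c - 1 + 1 by omega, pow_succ]
    ring
  by_cases h : b = c
  · subst h
    rw [if_pos rfl, if_pos (by omega), show b - 1 + 1 - b = 0 by omega, e]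
    ring
  · rw [if_neg h, if_neg (by omega), e]
    ring

theorem CO_fs (t : Bool) {c b : ℕ} (hc : 2 ≤ c) (hb : c ≤ b) (l : List ℕ) :
    CO_f t (b :: l) (c - 1) = (-1) ^ (c - 1) * CO_f t l (c - 1) := by
  rw [CO_f, if_neg (by omega : ¬ b ≤ c - 1)]
  ring

theorem CO_A (t : Bool) {c : ℕ} (hc : 2 ≤ c) {L : List ℕ} (h0 : ∀ b ∈ L, 1 ≤ b)
    (he : Even L.sum) (hf : CO_f t L (c - 1) = 0) (hg : CO_g t L (c - 1) = 0) : ∀ l : List ℕ,
    (∀ b ∈ l, c ≤ b) → l.Pairwise (· ≥ ·) → CO_f t (l ++ L) (c - 1) = 0 ∧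
      |CO_g t (l ++ L) (c - 1)| = 2 * l.count c ∧
      ((∀ b ∈ l, b ≤ c) → CO_g t (l ++ L) (c - 1) =
        2 * l.length * CO_e t * (-1) ^ (c * (l.length + 1))) := by
  intro l
  induction l with
  | nil => intro _ _; simp [hf, hg]
  | cons b l ih =>
    intro h hs
    have hb := h b (by simp)
    have hl : ∀ x ∈ l, c ≤ x := fun x hx => h x (by simp [hx])
    obtain ⟨h1, h2, h3⟩ := ih hl (List.pairwise_cons.1 hs).2
    have hf0 : CO_f t (l ++ L) 0 = 1 := by
      apply CO_f0
      intro x hx
      rcases List.mem_append.1 hx with h4 | h4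
      · have := hl x h4; omega
      · exact h0 x h4
    have he2 : |CO_e t| = 1 := by cases t <;> simp [CO_e]
    rw [List.cons_append, CO_fs t hc hb, CO_gs t hc hb, h1, mul_zero, add_zero, hf0]
    by_cases hbc : b = c
    · subst hbc
      have hle : ∀ x ∈ l, x ≤ b := (List.pairwise_cons.1 hs).1
      have hrep := CO_rep hl hle
      have hsum : (l ++ L).sum = l.length * b + L.sum := by
        rw [List.sum_append]
        congr 1
        conv_lhs => rw [hrep]
        simp
      have hcnt : l.count b = l.length := by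
        rw [List.count_eq_length]
        intro x hx
        exact le_antisymm (hl x hx) (hle x hx)
      have key : (-1) ^ b * CO_g t (l ++ L) (b - 1) +
          2 * (CO_e t * (-1) ^ (l ++ L).sum * (if b = b then 1 else 0)) =
          2 * (l.length + 1 : ℕ) * CO_e t * (-1) ^ (b * (l.length + 1 + 1)) := by
        rw [h3 hle, if_pos rfl, hsum, pow_add, he.neg_one_pow]
        have e1 : (-1 : ℤ) ^ b * (-1) ^ (b * (l.length + 1)) = (-1) ^ (b * (l.length + 1 + 1)) := by
          rw [← pow_add]; congr 1; ring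
        have e2 : (-1 : ℤ) ^ (l.length * b) = (-1) ^ (b * (l.length + 1 + 1)) := by
          have : b * (l.length + 1 + 1) = l.length * b + b * 2 := by ring
          rw [this, pow_add, pow_mul _ b 2, ← pow_mul, mul_comm b 2, pow_mul]
          simp
        rw [e2, ← e1]
        push_cast
        ring
      refine ⟨rfl, ?_, fun _ => ?_⟩
      · rw [key, abs_mul, abs_mul, he2, abs_pow, abs_neg, abs_one, one_pow, List.count_cons_self, hcnt]
        rw [abs_of_nonneg (by positivity)]
        push_cast
        ring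
      · rw [key, List.length_cons]
    · rw [if_neg hbc, mul_zero, mul_zero, add_zero]
      refine ⟨rfl, ?_, fun h4 => absurd (le_antisymm (h4 b (by simp)) hb) hbc⟩
      rw [abs_mul, abs_pow, abs_neg, abs_one, one_pow, one_mul, h2, List.count_cons_of_ne hbc]

theorem CO_B1 : ∀ l : List ℕ, (∀ b ∈ l, 1 ≤ b) → CO_g true l 0 = if Even l.length then 0 else 2 := by
  intro l
  induction l with
  | nil => intro _; simp [CO_g]
  | cons b l ih =>
    intro h
    have hb := h b (by simp)
    have hl : ∀ x ∈ l, 1 ≤ x := fun x hx => h x (by simp [hx])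
    rw [CO_g, ih hl, if_neg (by omega : ¬ b ≤ 0), CO_f0 true l hl, List.length_cons]
    simp only [Nat.even_add_one]
    by_cases hb1 : b = 1
    · subst hb1
      rw [if_pos (show 1 ≤ 0 + 1 by omega), if_pos (show 1 = 1 ∧ True from ⟨rfl, trivial⟩),
        show 0 + 1 - 1 = 0 from rfl, CO_f0 true l hl]
      by_cases hE : Even l.length <;> simp [hE, CO_e] <;> ring
    · rw [if_neg (show ¬ b ≤ 0 + 1 by omega), if_neg (show ¬ (b = 1 ∧ True) from fun h => hb1 h.1)]
      by_cases hE : Even l.length <;> simp [hE]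

/-- a sorted list with a head equal to `1` -/
theorem CO_ones {l : List ℕ} (h : ∀ b ∈ l, 1 ≤ b) (h' : ∀ b ∈ l, b ≤ 1) :
    l.count 1 = l.length ∧ l.sum = l.length ∧ l.count 2 = 0 := by
  have h1 := CO_rep h h'
  refine ⟨?_, ?_, ?_⟩
  · rw [List.count_eq_length]
    intro x hx
    exact le_antisymm (h x hx) (h' x hx)
  · conv_lhs => rw [h1]
    simp
  · rw [List.count_eq_zero]
    intro h2
    have := h' 2 h2
    omega

theorem CO_D1 : ∀ l : List ℕ, (∀ b ∈ l, 1 ≤ b) → l.Pairwise (· ≥ ·) →
    CO_g false l 0 = if Even l.length then 2 * (l.count 1 : ℤ) else 2 - 2 * l.count 1 := by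
  intro l
  induction l with
  | nil => intro _ _; simp [CO_g]
  | cons b l ih =>
    intro h hs
    have hb := h b (by simp)
    have hl : ∀ x ∈ l, 1 ≤ x := fun x hx => h x (by simp [hx])
    rw [CO_g, ih hl (List.pairwise_cons.1 hs).2, if_neg (by omega : ¬ b ≤ 0), CO_f0 false l hl,
      List.length_cons]
    simp only [Nat.even_add_one]
    by_cases hb1 : b = 1
    · subst hb1
      obtain ⟨h1, h2, -⟩ := CO_ones hl (List.pairwise_cons.1 hs).1
      rw [if_pos (show 1 ≤ 0 + 1 by omega), if_neg (show ¬ (1 = 1 ∧ false = true) by simp),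
        show 0 + 1 - 1 = 0 from rfl, CO_f0 false l hl, h2,
        List.count_cons_self, h1, CO_pe]
      by_cases hE : Even l.length <;> simp [hE, CO_e] <;> ring
    · rw [if_neg (show ¬ b ≤ 0 + 1 by omega), if_neg (show ¬ (b = 1 ∧ false = true) by simp),
        List.count_cons_of_ne hb1]
      by_cases hE : Even l.length <;> simp [hE] <;> ring

theorem CO_B2f : ∀ l : List ℕ, (∀ b ∈ l, 1 ≤ b) → l.Pairwise (· ≥ ·) →
    CO_f true l 1 = - (-1) ^ l.length * l.count 1 := by
  intro l
  induction l with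
  | nil => intro _ _; simp [CO_f]
  | cons b l ih =>
    intro h hs
    have hb := h b (by simp)
    have hl : ∀ x ∈ l, 1 ≤ x := fun x hx => h x (by simp [hx])
    rw [CO_f, ih hl (List.pairwise_cons.1 hs).2, List.length_cons, pow_succ]
    by_cases hb1 : b = 1
    · subst hb1
      obtain ⟨h1, h2, -⟩ := CO_ones hl (List.pairwise_cons.1 hs).1
      rw [if_pos le_rfl, Nat.sub_self, CO_f0 true l hl, h2, List.count_cons_self, h1]
      simp only [CO_e, if_true]
      push_cast
      ring
    · rw [if_neg (by omega), List.count_cons_of_ne hb1]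
      ring

theorem CO_B2 : ∀ l : List ℕ, (∀ b ∈ l, 1 ≤ b) → l.Pairwise (· ≥ ·) → 2 ∉ l →
    CO_g true l 1 = if Even l.length then 2 * (l.count 1 : ℤ) * (l.count 1 - 2) else
      2 * (l.count 1 : ℤ) * (l.count 1 - 1) := by
  intro l
  induction l with
  | nil => intro _ _ _; simp [CO_g]
  | cons b l ih =>
    intro h hs hn
    have hb := h b (by simp)
    have hl : ∀ x ∈ l, 1 ≤ x := fun x hx => h x (by simp [hx])
    have hs' := (List.pairwise_cons.1 hs).2
    have hb2 : b ≠ 2 := fun e => hn (by simp [e])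
    rw [CO_g, ih hl hs' (fun h => hn (by simp [h])), CO_B2f l hl hs', CO_pe l.length, List.length_cons]
    simp only [Nat.even_add_one]
    by_cases hb1 : b = 1
    · subst hb1
      obtain ⟨h1, h2, -⟩ := CO_ones hl (List.pairwise_cons.1 hs).1
      rw [if_pos (show 1 ≤ 1 from le_rfl), if_pos (show 1 ≤ 1 + 1 by omega),
        if_pos (show 1 = 1 ∧ True from ⟨rfl, trivial⟩), Nat.sub_self, CO_B1 l hl,
        show 1 + 1 - 1 = 1 from rfl, CO_B2f l hl hs', h2, List.count_cons_self, h1, CO_pe l.length]
      by_cases hE : Even l.length <;> simp [hE, CO_e] <;> ring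
    · rw [if_neg (by omega : ¬ b ≤ 1), if_neg (by omega : ¬ b ≤ 1 + 1),
        if_neg (show ¬ (b = 1 ∧ True) from fun h => hb1 h.1), List.count_cons_of_ne hb1]
      by_cases hE : Even l.length <;> simp [hE] <;> ring

/-- parity of the sum of a list of `1`s and `2`s -/
theorem CO_par : ∀ l : List ℕ, (∀ b ∈ l, 1 ≤ b) → (∀ b ∈ l, b ≤ 2) →
    (-1 : ℤ) ^ l.sum = (-1) ^ l.count 1 := by
  intro l
  induction l with
  | nil => intro _ _; simp
  | cons b l ih =>
    intro h h'
    have hb := h b (by simp)
    have hb' := h' b (by simp)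
    rw [List.sum_cons, pow_add, ih (fun x hx => h x (by simp [hx])) (fun x hx => h' x (by simp [hx]))]
    have : b = 1 ∨ b = 2 := by omega
    rcases this with rfl | rfl
    · rw [List.count_cons_self, pow_succ]; ring
    · rw [List.count_cons_of_ne (by norm_num)]; ring

theorem CO_B2' : ∀ l : List ℕ, (∀ b ∈ l, 1 ≤ b) → l.Pairwise (· ≥ ·) → l.count 1 = 1 →
    CO_g true l 1 = if Even l.length then -2 * ((l.count 2 : ℤ) + 1) else -2 * (l.count 2 : ℤ) := by
  intro l
  induction l with
  | nil => intro _ _ h; simp at h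
  | cons b l ih =>
    intro h hs hn
    have hb := h b (by simp)
    have hl : ∀ x ∈ l, 1 ≤ x := fun x hx => h x (by simp [hx])
    have hs' := (List.pairwise_cons.1 hs).2
    by_cases hb1 : b = 1
    · subst hb1
      obtain ⟨h1, h2, -⟩ := CO_ones hl (List.pairwise_cons.1 hs).1
      rw [List.count_cons_self, h1] at hn
      have : l = [] := List.eq_nil_of_length_eq_zero (by omega)
      subst this
      simp [CO_g, CO_f, CO_e]
    · rw [List.count_cons_of_ne hb1] at hn
      rw [CO_g, ih hl hs' hn, CO_B2f l hl hs', CO_pe l.length, List.length_cons, hn,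
        if_neg (by omega : ¬ b ≤ 1), if_neg (show ¬ (b = 1 ∧ true = true) from fun h => hb1 h.1)]
      simp only [Nat.even_add_one]
      by_cases hb2 : b = 2
      · subst hb2
        rw [if_pos (show 2 ≤ 1 + 1 by omega), show 1 + 1 - 2 = 0 from rfl, CO_f0 true l hl,
          CO_par l hl (List.pairwise_cons.1 hs).1, hn, List.count_cons_self]
        by_cases hE : Even l.length <;> simp [hE, CO_e] <;> ring
      · rw [if_neg (by omega : ¬ b ≤ 1 + 1), List.count_cons_of_ne hb2]
        by_cases hE : Even l.length <;> simp [hE] <;> ring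

theorem CO_B3 : ∀ l : List ℕ, (∀ b ∈ l, 3 ≤ b) → l.Pairwise (· ≥ ·) →
    CO_f true (l ++ [1, 1]) 2 = 1 ∧ CO_g true (l ++ [1, 1]) 2 =
      if Even l.length then -2 * (l.count 3 : ℤ) else 2 * ((l.count 3 : ℤ) + 1) := by
  intro l
  induction l with
  | nil => intro _ _; simp [CO_g, CO_f, CO_e]
  | cons b l ih =>
    intro h hs
    have hb := h b (by simp)
    have hl : ∀ x ∈ l, 3 ≤ x := fun x hx => h x (by simp [hx])
    obtain ⟨h1, h2⟩ := ih hl (List.pairwise_cons.1 hs).2
    have hf0 : CO_f true (l ++ [1, 1]) 0 = 1 := by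
      apply CO_f0
      intro x hx
      rcases List.mem_append.1 hx with h4 | h4
      · have := hl x h4; omega
      · simp at h4; omega
    have e1 := CO_fs true (c := 3) (by norm_num) hb (l ++ [1, 1])
    have e2 := CO_gs true (c := 3) (by norm_num) hb (l ++ [1, 1])
    simp only [show 3 - 1 = 2 from rfl] at e1 e2
    rw [List.cons_append, e1, e2, h1, h2, hf0, List.length_cons]
    refine ⟨by norm_num, ?_⟩
    simp only [Nat.even_add_one]
    by_cases hb3 : b = 3
    · subst hb3
      have hle : ∀ x ∈ l, x ≤ 3 := (List.pairwise_cons.1 hs).1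
      have hrep := CO_rep hl hle
      have hcnt : l.count 3 = l.length := by
        rw [List.count_eq_length]
        intro x hx
        exact le_antisymm (hl x hx) (hle x hx)
      have hsum : (-1 : ℤ) ^ (l ++ [1, 1]).sum = (-1) ^ l.length := by
        have h5 : l.sum = l.length * 3 := by
          conv_lhs => rw [hrep]
          simp
        rw [List.sum_append, h5, pow_add, pow_mul]
        rcases neg_one_pow_eq_or ℤ l.length with h6 | h6 <;> rw [h6] <;> norm_num
      rw [hsum, List.count_cons_self, hcnt, CO_pe l.length, if_pos rfl]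
      by_cases hE : Even l.length <;> simp [hE, CO_e] <;> ring
    · rw [if_neg hb3, List.count_cons_of_ne hb3]
      by_cases hE : Even l.length <;> simp [hE] <;> ring

theorem CO_fbig (t : Bool) : ∀ (l : List ℕ) (i : ℕ), l.sum < i → CO_f t l i = 0 := by
  intro l
  induction l with
  | nil => intro i hi; rw [CO_f, if_neg (by simp at hi; omega)]
  | cons b l ih =>
    intro i hi
    rw [List.sum_cons] at hi
    rw [CO_f, ih i (by omega), ih (i - b) (by omega)]
    simp

theorem CO_gbig (t : Bool) : ∀ (l : List ℕ) (i : ℕ), (∀ b ∈ l, 1 ≤ b) → l.sum ≤ i →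
    CO_g t l i = 0 := by
  intro l
  induction l with
  | nil => intro i _ _; rfl
  | cons b l ih =>
    intro i h hi
    have hb := h b (by simp)
    have hl : ∀ x ∈ l, 1 ≤ x := fun x hx => h x (by simp [hx])
    rw [List.sum_cons] at hi
    rw [CO_g, ih i hl (by omega), ih (i - b) hl (by omega), CO_fbig t l i (by omega),
      CO_fbig t l (i + 1 - b) (by omega)]
    simp

/-! ### the coordinates -/

theorem CO_app_append {R : Type} [CommRing R] (w : Lab → R) (a : ℕ) (l : List ℕ) :
    ∀ u : St →₀ R, app w (l ++ [a]) u = Rib w a (app w l u) := by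
  induction l with
  | nil => intro u; rfl
  | cons b l ih => intro u; simp only [List.cons_append, app]; rw [ih]

theorem CO_Dg {R : Type} [CommRing R] (f : Lab → R) (u : St →₀ R) (S : St) :
    Dg f u S = (∑ l ∈ S, f l) * u S := by
  unfold Dg
  rw [Finsupp.linearCombination_apply, Finsupp.sum, Finsupp.finsetSum_apply]
  have : ∀ S' ∈ u.support, (u S' • Finsupp.single S' (∑ l ∈ S', f l)) S =
      if S' = S then (∑ l ∈ S, f l) * u S else 0 := by
    intro S' _
    rw [Finsupp.smul_apply, smul_eq_mul, Finsupp.single_apply]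
    split_ifs with h
    · rw [h]; ring
    · simp
  rw [sum_congr rfl this, sum_ite_eq']
  split_ifs with h
  · rfl
  · rw [Finsupp.notMem_support_iff.1 h, mul_zero]

theorem CO_sum_col {R : Type} [CommRing R] (f : Lab → R) (n i k : ℕ) (hi : i ≤ n) (hk : k ≤ n) :
    ∑ l ∈ col n i k, f l = (∑ p ∈ range (n + 1), f (true, p) - f (true, n - i)) +
      (∑ p ∈ range (n + 1), f (false, p) - f (false, n - k)) := by
  unfold col
  have hd : Disjoint (((range (n + 1)).erase (n - i)).image fun p => ((true, p) : Lab))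
      (((range (n + 1)).erase (n - k)).image fun p => ((false, p) : Lab)) := by
    rw [Finset.disjoint_left]
    intro x hx hx'
    rw [mem_image] at hx hx'
    obtain ⟨p, -, rfl⟩ := hx
    obtain ⟨q, -, h⟩ := hx'
    exact Bool.false_ne_true (congrArg Prod.fst h)
  rw [sum_union hd, sum_image (by intro x _ y _ h; exact congrArg Prod.snd h),
    sum_image (by intro x _ y _ h; exact congrArg Prod.snd h)]
  rw [← add_sum_erase (range (n + 1)) (fun p => f (true, p)) (mem_range.2 (by omega : n - i < n + 1)),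
    ← add_sum_erase (range (n + 1)) (fun p => f (false, p)) (mem_range.2 (by omega : n - k < n + 1))]
  ring

theorem CO_tele (n : ℕ) : ∑ p ∈ range (n + 1), ((-1 : ℤ) ^ p - if 1 ≤ p then (-1) ^ (p - 1) else 0) =
    (-1) ^ n := by
  induction n with
  | zero => simp
  | succ n ih =>
    rw [sum_range_succ, ih, if_pos (by omega), Nat.add_sub_cancel]
    ring

theorem CO_sub (n i : ℕ) (h : i ≤ n) : (-1 : ℤ) ^ (n - i) = (-1) ^ n * (-1) ^ i := by
  obtain ⟨d, rfl⟩ := Nat.exists_eq_add_of_le h
  rw [Nat.add_sub_cancel_left, pow_add]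
  have := CO_sq i
  linear_combination (-(-1 : ℤ) ^ d) * this

theorem CO_xt (t b : Bool) (p : ℕ) : xt t (b, p) = (if b then 1 else CO_e t) * (-1) ^ p := by
  unfold xt CO_e
  cases t <;> cases b <;> simp

theorem CO_diag (t : Bool) {n i k : ℕ} (hi : i + 1 ≤ n) (hk : k + 1 ≤ n) :
    ∑ l ∈ col n i k, ((1 : ℤ) * xt t l - if 1 ≤ l.2 then 1 * xt t (dn 1 l) else 0) =
      (-1) ^ n * ((1 + CO_e t) - 2 * (-1) ^ i - 2 * CO_e t * (-1) ^ k) := by
  rw [CO_sum_col _ n i k (by omega) (by omega)]
  have h1 : ∀ b : Bool, ∀ p : ℕ, ((1 : ℤ) * xt t (b, p) - if 1 ≤ (b, p).2 then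
      1 * xt t (dn 1 (b, p)) else 0) =
      (if b then 1 else CO_e t) * ((-1 : ℤ) ^ p - if 1 ≤ p then (-1) ^ (p - 1) else 0) := by
    intro b p
    simp only [dn]
    rw [CO_xt, CO_xt]
    split_ifs <;> ring
  simp_rw [h1, ← mul_sum, CO_tele]
  rw [if_pos (by omega : 1 ≤ n - i), if_pos (by omega : 1 ≤ n - k), CO_sub n i (by omega),
    CO_sub n k (by omega), CO_sub (n - i) 1 (by omega), CO_sub (n - k) 1 (by omega),
    CO_sub n i (by omega), CO_sub n k (by omega)]
  simp only [if_true, Bool.false_eq_true, if_false]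
  ring

/-- the invariant -/
def CO_inv (t : Bool) (n : ℕ) (l : List ℕ) : Prop :=
  GV n l.sum (app (xt t) l (Finsupp.single (vac n) 1)) ∧
  ∃ σ : ℤ, (σ = 1 ∨ σ = -1) ∧
    (∀ i k, i + k = l.sum → app (xt t) l (Finsupp.single (vac n) 1) (col n i k) =
      σ * CO_f t l.reverse i) ∧
    (∀ i k, i + k + 1 = l.sum →
      Low (fun _ => (1 : ℤ)) 1 (app (xt t) l (Finsupp.single (vac n) 1)) (col n i k) =
      σ * CO_g t l.reverse i)

theorem CO_base (t : Bool) (n : ℕ) : CO_inv t n [] := by
  refine ⟨?_, 1, Or.inl rfl, ?_, ?_⟩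
  · intro S hS
    rw [app, Finsupp.mem_support_iff, Finsupp.single_apply] at hS
    by_cases h : vac n = S
    · rw [← h]; exact SD_good_vac n
    · rw [if_neg h] at hS; exact absurd rfl hS
  · intro i k h
    simp only [List.sum_nil] at h
    have hi : i = 0 := by omega
    have hk : k = 0 := by omega
    subst hi hk
    have : vac n = col n 0 0 := by
      ext ⟨c, p⟩
      unfold col vac
      rw [mem_union, mem_image, mem_image]
      cases c <;> simp <;> omega
    rw [app, ← this]
    simp [CO_f]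
  · intro i k h
    simp at h

theorem CO_step (hCOL : COL_stmt) (hLG : LG_stmt) (hLB : LB_stmt) (t : Bool) (n : ℕ) (l : List ℕ)
    (b : ℕ) (hb : 1 ≤ b) (hn : l.sum + b ≤ n) (hl : ∀ x ∈ l, 1 ≤ x) (h : CO_inv t n l) :
    CO_inv t n (l ++ [b]) := by
  obtain ⟨hG, σ, hσ, hF, hL⟩ := h
  set u := app (xt t) l (Finsupp.single (vac n) 1) with hu
  set m := l.sum with hm
  have hsum : (l ++ [b]).sum = m + b := by simp [hm]
  have hrs : l.reverse.sum = m := by simp [hm]
  have hv : app (xt t) (l ++ [b]) (Finsupp.single (vac n) 1) = Rib (xt t) b u :=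
    CO_app_append _ _ _ _
  have hrl : ∀ x ∈ l.reverse, 1 ≤ x := fun x hx => hl x (List.mem_reverse.1 hx)
  unfold CO_inv
  rw [hsum, hv, List.reverse_append, List.reverse_singleton, List.singleton_append]
  refine ⟨(hLG ℤ (xt t) n m b u hb hG).1, -(-1) ^ n * CO_e t * (-1) ^ m * σ, ?_, ?_, ?_⟩
  · rcases neg_one_pow_eq_or ℤ n with h1 | h1 <;> rcases neg_one_pow_eq_or ℤ m with h2 | h2 <;>
      rcases hσ with h3 | h3 <;> cases t <;> simp [h1, h2, h3, CO_e]
  · intro i k hik
    rw [hCOL ℤ (xt t) n b i k u hb (by omega) (by omega), CO_f, hrs]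
    have e1 : (if b ≤ i then (-1) ^ (b - 1) * xt t (true, n - i) * u (col n (i - b) k) else 0) =
        σ * (-(-1) ^ n) * (if b ≤ i then (-1) ^ (i - b) * CO_f t l.reverse (i - b) else 0) := by
      split_ifs with h1
      · rw [hF (i - b) k (by omega), CO_xt, CO_sub n i (by omega), CO_sub i b h1, CO_sub b 1 hb]
        simp only [if_true]
        ring
      · simp
    have e2 : (if b ≤ k then (-1) ^ (b - 1) * xt t (false, n - k) * u (col n i (k - b)) else 0) =
        σ * (-(-1) ^ n) * CO_e t * (-1) ^ (b + k) * CO_f t l.reverse i := by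
      split_ifs with h1
      · rw [hF i (k - b) (by omega), CO_xt, CO_sub n k (by omega), CO_sub b 1 hb, pow_add]
        simp only [Bool.false_eq_true, if_false]
        ring
      · rw [CO_fbig t _ i (by omega)]
        simp
    have e3 : (-1 : ℤ) ^ (b + k) = (-1) ^ m * (-1) ^ i := by
      have h1 : (-1 : ℤ) ^ k * (-1) ^ i = (-1) ^ m * (-1) ^ b := by
        rw [← pow_add, ← pow_add]; congr 1; omega
      have h2 := CO_sq b
      have h3 := CO_sq i
      rw [pow_add]
      linear_combination ((-1 : ℤ) ^ b * (-1) ^ i) * h1 + (-1 : ℤ) ^ m * (-1) ^ i * h2 -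
        (-1 : ℤ) ^ b * (-1) ^ k * h3
    have h2 := CO_sq m
    have h4 : CO_e t * CO_e t = 1 := by cases t <;> simp [CO_e]
    rw [e1, e2, e3]
    generalize (if b ≤ i then (-1) ^ (i - b) * CO_f t l.reverse (i - b) else 0) = x
    linear_combination (-(σ * (-(-1) ^ n) * x * CO_e t * CO_e t)) * h2 -
      (σ * (-(-1) ^ n) * x) * h4
  · intro i k hik
    have hm1 : (-1 : ℤ) ^ m * (-1) ^ m = 1 := CO_sq m
    have h4 : CO_e t * CO_e t = 1 := by cases t <;> simp [CO_e]
    have hib := CO_sq b
    have hii := CO_sq i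
    have e3 : (-1 : ℤ) ^ k * (-1) ^ b = - (-1) ^ m * (-1) ^ i := by
      have h1 : (-1 : ℤ) ^ k * (-1) ^ i * (-1) = (-1) ^ m * (-1) ^ b := by
        rw [← pow_add, ← pow_succ, ← pow_add]; congr 1; omega
      linear_combination (-(-1 : ℤ) ^ b * (-1) ^ i) * h1 - (-1 : ℤ) ^ m * (-1) ^ i * hib -
        (-1 : ℤ) ^ b * (-1) ^ k * hii
    -- the part from `Low 1 1 u`
    have E1 : Rib (xt t) b (Low (fun _ => (1 : ℤ)) 1 u) (col n i k) =
        σ * (-(-1) ^ n) * ((if b ≤ i then (-1) ^ (i - b) * CO_g t l.reverse (i - b) else 0) -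
          CO_e t * (-1) ^ m * (-1) ^ i * CO_g t l.reverse i) := by
      rw [hCOL ℤ (xt t) n b i k _ hb (by omega) (by omega)]
      have e1 : (if b ≤ i then (-1) ^ (b - 1) * xt t (true, n - i) *
          Low (fun _ => (1 : ℤ)) 1 u (col n (i - b) k) else 0) =
          σ * (-(-1) ^ n) * (if b ≤ i then (-1) ^ (i - b) * CO_g t l.reverse (i - b) else 0) := by
        split_ifs with h1
        · rw [hL (i - b) k (by omega), CO_xt, CO_sub n i (by omega), CO_sub i b h1, CO_sub b 1 hb]
          simp only [if_true]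
          ring
        · simp
      have e2 : (if b ≤ k then (-1) ^ (b - 1) * xt t (false, n - k) *
          Low (fun _ => (1 : ℤ)) 1 u (col n i (k - b)) else 0) =
          σ * (-(-1) ^ n) * CO_e t * ((-1) ^ k * (-1) ^ b) * CO_g t l.reverse i := by
        split_ifs with h1
        · rw [hL i (k - b) (by omega), CO_xt, CO_sub n k (by omega), CO_sub b 1 hb]
          simp only [Bool.false_eq_true, if_false]
          ring
        · rw [CO_gbig t _ i hrl (by omega)]
          simp
      rw [e1, e2, e3]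
      ring
    by_cases hb1 : b = 1
    · subst hb1
      have h5 := (hLB ℤ (fun _ => 1) (xt t) n m 1 1 u le_rfl le_rfl hG hn).2.1 rfl
      have h6 := congrArg (fun z : St →₀ ℤ => z (col n i k)) h5
      simp only [Finsupp.sub_apply] at h6
      rw [CO_Dg, CO_diag t (by omega) (by omega), hF i k (by omega), E1] at h6
      have h7 : (1 : ℤ) + CO_e t = if t = true then 2 * CO_e t else 0 := by
        cases t <;> simp [CO_e]
      have e4 : (-1 : ℤ) ^ k = (-1) ^ m * (-1) ^ i := by linear_combination (-1 : ℤ) * e3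
      rw [CO_g, hrs, if_pos (by omega : 1 ≤ i + 1), Nat.add_sub_cancel]
      rw [h7, e4] at h6
      rw [sub_eq_iff_eq_add.1 h6]
      generalize (if 1 ≤ i then (-1) ^ (i - 1) * CO_g t l.reverse (i - 1) else 0) = x
      by_cases ht : t = true
      · rw [if_pos ht, if_pos ⟨rfl, ht⟩]
        subst ht
        simp only [CO_e, if_true]
        linear_combination (-(σ * (-(-1) ^ n) * x) - 2 * σ * (-(-1) ^ n) * (-1) ^ i * CO_f true l.reverse i +
          2 * σ * (-(-1) ^ n) * CO_f true l.reverse i) * hm1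
      · rw [if_neg ht, if_neg (fun h => ht h.2)]
        have ht' : t = false := by cases t <;> simp_all
        subst ht'
        simp only [CO_e, Bool.false_eq_true, if_false]
        linear_combination (-(σ * (-(-1) ^ n) * x) - 2 * σ * (-(-1) ^ n) * (-1) ^ i * CO_f false l.reverse i) * hm1
    · have h5 := (hLB ℤ (fun _ => 1) (xt t) n m 1 b u le_rfl hb hG hn).1 (by omega)
      have h6 := congrArg (fun z : St →₀ ℤ => z (col n i k)) h5
      simp only [Finsupp.sub_apply] at h6
      rw [E1, hCOL ℤ _ n (b - 1) i k u (by omega) (by omega) (by omega)] at h6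
      have e1 : (if b - 1 ≤ i then (-1) ^ (b - 1 - 1) * (1 * xt t (true, n - i) -
          1 * xt t (dn 1 (true, n - i))) * u (col n (i - (b - 1)) k) else 0) =
          2 * (σ * (-(-1) ^ n) *
            (if b ≤ i + 1 then (-1) ^ (i + 1 - b) * CO_f t l.reverse (i + 1 - b) else 0)) := by
        by_cases h1 : b ≤ i + 1
        · rw [if_pos (by omega), if_pos h1, hF (i - (b - 1)) k (by omega)]
          simp only [dn]
          rw [CO_xt, CO_xt, CO_sub (n - i) 1 (by omega), CO_sub n i (by omega), CO_sub (i + 1) b h1,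
            show b - 1 - 1 = b - 2 by omega, CO_sub b 2 (by omega), show i - (b - 1) = i + 1 - b by omega]
          simp only [if_true]
          ring
        · rw [if_neg (by omega), if_neg h1]
          simp
      have e2 : (if b - 1 ≤ k then (-1) ^ (b - 1 - 1) * (1 * xt t (false, n - k) -
          1 * xt t (dn 1 (false, n - k))) * u (col n i (k - (b - 1))) else 0) =
          2 * (σ * (-(-1) ^ n) * CO_e t * (-1) ^ m * (-1) ^ i * CO_f t l.reverse i) := by
        by_cases h1 : b - 1 ≤ k
        · rw [if_pos h1, hF i (k - (b - 1)) (by omega)]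
          simp only [dn]
          rw [CO_xt, CO_xt, CO_sub (n - k) 1 (by omega), CO_sub n k (by omega),
            show b - 1 - 1 = b - 2 by omega, CO_sub b 2 (by omega)]
          simp only [Bool.false_eq_true, if_false]
          linear_combination (2 * σ * (-1) ^ n * CO_e t * CO_f t l.reverse i) * e3
        · rw [if_neg h1, CO_fbig t _ i (by omega)]
          simp
      rw [e1, e2] at h6
      rw [CO_g, hrs, if_neg (fun h => hb1 h.1 : ¬ (b = 1 ∧ t = true)), sub_eq_iff_eq_add.1 h6]
      generalize (if b ≤ i then (-1) ^ (i - b) * CO_g t l.reverse (i - b) else 0) = x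
      generalize (if b ≤ i + 1 then (-1) ^ (i + 1 - b) * CO_f t l.reverse (i + 1 - b) else 0) = y
      linear_combination (-(σ * (-(-1) ^ n) * (x + 2 * y) * CO_e t * CO_e t)) * hm1 -
        (σ * (-(-1) ^ n) * (x + 2 * y)) * h4

theorem CO_all (hCOL : COL_stmt) (hLG : LG_stmt) (hLB : LB_stmt) (t : Bool) (n : ℕ) (l : List ℕ) :
    (∀ x ∈ l, 1 ≤ x) → l.sum ≤ n → CO_inv t n l := by
  induction l using List.reverseRecOn with
  | nil => intro _ _; exact CO_base t n
  | append_singleton l b ih =>
    intro h1 h2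
    rw [List.sum_append, List.sum_singleton] at h2
    exact CO_step hCOL hLG hLB t n l b (h1 b (by simp)) h2 (fun x hx => h1 x (by simp [hx]))
      (ih (fun x hx => h1 x (by simp [hx])) (by omega))

/-- `Low 1 1` does not kill the vectors at `q = -1` -/
theorem CO (hCOL : COL_stmt) (hLG : LG_stmt) (hLB : LB_stmt) : CO_stmt := by
  intro t n β h1 hs hn hne hpar hex1 hex2
  obtain ⟨-, σ, hσ, -, hL⟩ := CO_all hCOL hLG hLB t n β h1 hn
  have hrl : ∀ x ∈ β.reverse, 1 ≤ x := fun x hx => h1 x (List.mem_reverse.1 hx)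
  have hrs : β.reverse.Pairwise (· ≥ ·) := by
    rw [List.pairwise_reverse]; exact hs
  -- it is enough to find a nonzero entry
  have key : (∃ i, i + 1 ≤ β.sum ∧ CO_g t β.reverse i ≠ 0) →
      Low (fun _ => (1 : ℤ)) 1 (app (xt t) β (Finsupp.single (vac n) 1)) ≠ 0 := by
    rintro ⟨i, hi, hg⟩ h0
    have h2 := hL i (β.sum - 1 - i) (by omega)
    rw [h0] at h2
    simp only [Finsupp.coe_zero, Pi.zero_apply] at h2
    rcases hσ with h3 | h3 <;> rw [h3] at h2 <;> apply hg <;> linarith
  apply key
  have hle : ∀ x ∈ β, x ≤ β.sum := fun x hx => List.single_le_sum (fun y _ => Nat.zero_le y) x hx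
  have hlen : 1 ≤ β.length := List.length_pos_iff.2 hne
  by_cases hone : 1 ∈ β
  swap
  · -- no part equal to `1`
    obtain ⟨c, β', rfl⟩ := List.exists_cons_of_ne_nil hne
    have hc : c ≠ 1 := fun h => hone (by simp [h])
    have hc1 := h1 c (by simp)
    have hmin : ∀ x ∈ (c :: β').reverse, c ≤ x := by
      intro x hx
      rcases List.mem_cons.1 (List.mem_reverse.1 hx) with h2 | h2
      · omega
      · exact (List.pairwise_cons.1 hs).1 x h2
    obtain ⟨-, h2, -⟩ := CO_A t (c := c) (by omega) (L := []) (by simp) (by simp)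
      (by rw [CO_f, if_neg (by omega)]) rfl (c :: β').reverse hmin hrs
    rw [List.append_nil] at h2
    refine ⟨c - 1, by have := hle c (by simp); omega, ?_⟩
    intro h3
    rw [h3, abs_zero, List.count_reverse, List.count_cons_self] at h2
    push_cast at h2
    have : (0 : ℤ) ≤ List.count c β' := by positivity
    omega
  have hcnt : 1 ≤ β.count 1 := List.count_pos_iff.2 hone
  have hsum1 := hle 1 hone
  cases t
  · -- type `D`
    have hE : Even β.length := by
      rcases hpar with h2 | h2
      · exact absurd h2 Bool.false_ne_true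
      · exact h2
    refine ⟨0, by omega, ?_⟩
    rw [CO_D1 _ hrl hrs, List.length_reverse, if_pos hE, List.count_reverse]
    intro h3
    have : (1 : ℤ) ≤ List.count 1 β := by exact_mod_cast hcnt
    omega
  by_cases hE : Even β.length
  swap
  · refine ⟨0, by omega, ?_⟩
    rw [CO_B1 _ hrl, List.length_reverse, if_neg hE]
    norm_num
  have hsum2 : 2 ≤ β.sum := by
    have h2 : 2 ≤ β.length := by
      rcases hE with ⟨r, hr⟩; omega
    have h3 : β.length ≤ β.sum := List.length_le_sum_of_one_le β h1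
    omega
  by_cases hh1 : β.count 1 = 1
  · refine ⟨1, by omega, ?_⟩
    rw [CO_B2' _ hrl hrs (by rw [List.count_reverse]; exact hh1), List.length_reverse, if_pos hE]
    intro h3
    have : (0 : ℤ) ≤ List.count 2 β.reverse := by positivity
    omega
  have hn2 : 2 ∉ β := fun h2 => hex2 ⟨rfl, by omega, h2⟩
  by_cases hh2 : β.count 1 = 2
  swap
  · refine ⟨1, by omega, ?_⟩
    rw [CO_B2 _ hrl hrs (fun h => hn2 (List.mem_reverse.1 h)), List.length_reverse, if_pos hE,
      List.count_reverse]
    intro h3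
    have h4 : (3 : ℤ) ≤ List.count 1 β := by
      have : 3 ≤ List.count 1 β := by omega
      exact_mod_cast this
    rcases mul_eq_zero.1 h3 with h5 | h5
    · omega
    · omega
  -- `β = 1, 1, β'`
  obtain ⟨c, β1, rfl⟩ := List.exists_cons_of_ne_nil hne
  have hc1 : c = 1 := by
    have h2 := h1 c (by simp)
    rcases List.mem_cons.1 hone with h3 | h3
    · exact h3.symm
    · have := (List.pairwise_cons.1 hs).1 1 h3
      omega
  subst hc1
  rw [List.count_cons_self] at hh2
  have hs1 := (List.pairwise_cons.1 hs).2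
  have hone1 : 1 ∈ β1 := List.count_pos_iff.1 (by omega)
  have hne1 : β1 ≠ [] := List.ne_nil_of_mem hone1
  obtain ⟨d, β2, rfl⟩ := List.exists_cons_of_ne_nil hne1
  have hd1 : d = 1 := by
    have h2 := h1 d (by simp)
    rcases List.mem_cons.1 hone1 with h3 | h3
    · exact h3.symm
    · have := (List.pairwise_cons.1 hs1).1 1 h3
      omega
  subst hd1
  rw [List.count_cons_self] at hh2
  have hs2 := (List.pairwise_cons.1 hs1).2
  have hno : 1 ∉ β2 := List.count_eq_zero.1 (by omega)
  have hne2 : β2 ≠ [] := by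
    rintro rfl
    exact hex1 ⟨rfl, rfl⟩
  obtain ⟨c, β3, rfl⟩ := List.exists_cons_of_ne_nil hne2
  have hc3 : 3 ≤ c := by
    have h2 := h1 c (by simp)
    have h3 : c ≠ 1 := fun h => hno (by simp [h])
    have h4 : c ≠ 2 := fun h => hn2 (by simp [h])
    omega
  have hmin : ∀ x ∈ (c :: β3).reverse, c ≤ x := by
    intro x hx
    rcases List.mem_cons.1 (List.mem_reverse.1 hx) with h2 | h2
    · omega
    · exact (List.pairwise_cons.1 hs2).1 x h2
  have hrs2 : (c :: β3).reverse.Pairwise (· ≥ ·) := by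
    rw [List.pairwise_reverse]; exact hs2
  have hrev : (1 :: 1 :: c :: β3).reverse = (c :: β3).reverse ++ [1, 1] := by simp
  have hE2 : Even (c :: β3).reverse.length := by
    rw [List.length_reverse]
    have : (1 :: 1 :: c :: β3).length = (c :: β3).length + 2 := by simp
    rw [this, Nat.even_add] at hE
    exact hE.2 (by norm_num)
  refine ⟨c - 1, by have := hle c (by simp); omega, ?_⟩
  rw [hrev]
  by_cases hc : c = 3
  · subst hc
    have h2 := (CO_B3 (3 :: β3).reverse hmin hrs2).2
    simp only [show 3 - 1 = 2 from rfl]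
    rw [h2, if_pos hE2, List.count_reverse, List.count_cons_self]
    intro h3
    have : (0 : ℤ) ≤ List.count 3 β3 := by positivity
    push_cast at h3
    omega
  · obtain ⟨-, h2, -⟩ := CO_A true (c := c) (by omega) (L := [1, 1]) (by simp) (by norm_num)
      (CO_fbig true [1, 1] (c - 1) (by simp; omega))
      (CO_gbig true [1, 1] (c - 1) (by simp) (by simp; omega)) (c :: β3).reverse hmin hrs2
    intro h3
    rw [h3, abs_zero, List.count_reverse, List.count_cons_self] at h2
    push_cast at h2
    have : (0 : ℤ) ≤ List.count c β3 := by positivity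
    omega

end Pool.Agent.helper27.PC
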