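import Pool.Agent.helper27.PC2.Stmt2
import Pool.Agent.helper93.PC.SD

/-!
# PC project, second half, module VQ: the two lowest coefficients of the negative part
-/

namespace Pool.Agent.helper27.PC

open Module Polynomial Finset

theorem VQ_mem_col {n i k : ℕ} {b : Bool} {p : ℕ} :
    (b, p) ∈ col n i k ↔ p ≠ n - (if b then i else k) ∧ p ≤ n := by
  unfold col
  rw [mem_union, mem_image, mem_image]
  cases b
  · simp [Nat.lt_succ_iff]
  · simp [Nat.lt_succ_iff]

theorem VQ_pos_col (n i k : ℕ) (b : Bool) :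
    SD_pos b (col n i k) = (range (n + 1)).erase (n - (if b then i else k)) := by
  ext p
  rw [SD_mem_pos, VQ_mem_col, mem_erase, mem_range, Nat.lt_succ_iff]

/-- the column state with all boxes in the component `b` -/
def VQ_cc (n : ℕ) (b : Bool) (k : ℕ) : St := if b then col n k 0 else col n 0 k

theorem VQ_mem_cc {n k : ℕ} {b c : Bool} {p : ℕ} :
    (c, p) ∈ VQ_cc n b k ↔ p ≠ n - (if c = b then k else 0) ∧ p ≤ n := by
  unfold VQ_cc
  cases b <;> cases c <;> simp [VQ_mem_col]

theorem VQ_pos_cc (n k : ℕ) (b c : Bool) :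
    SD_pos c (VQ_cc n b k) = (range (n + 1)).erase (n - (if c = b then k else 0)) := by
  ext p
  rw [SD_mem_pos, VQ_mem_cc, mem_erase, mem_range, Nat.lt_succ_iff]

theorem VQ_eq_range {T : Finset ℕ} (h : ∑ x ∈ T, x ≤ ∑ i ∈ range T.card, i) :
    T = range T.card := by
  by_contra hne
  have h1 : ∃ x ∈ range T.card, x ∉ T := by
    by_contra h2
    push Not at h2
    have h3 : range T.card ⊆ T := h2
    exact hne (eq_of_subset_of_card_le h3 (by simp)).symm
  obtain ⟨x, hx, hxT⟩ := h1
  have h2 := SD_minsum2 hxT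
  rw [mem_range] at hx
  omega

theorem VQ_col_of_hole {n k : ℕ} {S : St} (hS : SD_Good n k S) (hk : k ≤ n) {b : Bool}
    (h : n - k ∉ SD_pos b S) : S = VQ_cc n b k := by
  have h1 := SD_minsum (insert (n - k) (SD_pos b S))
  have h2 := SD_minsum (SD_pos (!b) S)
  have hc : (insert (n - k) (SD_pos b S)).card = n + 1 := by
    rw [card_insert_of_notMem h, hS.1]
  have hc' := hS.1 (!b)
  have hs : ∑ p ∈ SD_pos b S, p + ∑ p ∈ SD_pos (!b) S, p = 2 * ∑ i ∈ range n, i + k := by
    have := hS.2
    cases b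
    · rw [add_comm]; exact this
    · exact this
  have h3 : insert (n - k) (SD_pos b S) = range (insert (n - k) (SD_pos b S)).card := by
    apply VQ_eq_range
    rw [hc] at h1 ⊢
    rw [hc'] at h2
    rw [sum_insert h] at h1 ⊢
    rw [sum_range_succ] at h1 ⊢
    omega
  have h4 : SD_pos (!b) S = range (SD_pos (!b) S).card := by
    apply VQ_eq_range
    rw [hc] at h1
    rw [hc'] at h2 ⊢
    rw [sum_insert h] at h1
    rw [sum_range_succ] at h1
    omega
  rw [hc] at h3
  rw [hc'] at h4
  apply SD_pos_ext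
  intro c
  rw [VQ_pos_cc]
  by_cases hcb : c = b
  · subst hcb
    rw [if_pos rfl, ← h3, erase_insert h]
  · have : c = !b := by cases b <;> cases c <;> simp_all
    subst this
    rw [if_neg hcb, h4, Nat.sub_zero]
    ext p
    simp only [mem_range, mem_erase]
    omega

theorem VQ_vac (n : ℕ) (b : Bool) : vac n = VQ_cc n b 0 := by
  ext ⟨c, p⟩
  rw [VQ_mem_cc]
  unfold vac
  simp only [mem_product, mem_univ, true_and, mem_range, ite_self]
  omega

theorem VQ_cc_ne {n k : ℕ} (hk : 1 ≤ k) (hkn : k ≤ n) {b c : Bool} (h : b ≠ c) :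
    VQ_cc n b k ≠ VQ_cc n c k := by
  intro he
  have h1 : (b, n) ∈ VQ_cc n b k := by
    rw [VQ_mem_cc, if_pos rfl]; omega
  rw [he, VQ_mem_cc, if_neg h] at h1
  omega

theorem VQ_cnt {S : St} {b : Bool} {p a q : ℕ} (hq : q ≤ p + a) (hpq : p < q)
    (h : ∀ x, p < x → x < p + a → ((b, x) ∈ S ↔ x < q)) : cnt S (b, p) a = q - p - 1 := by
  unfold cnt
  have h1 : (S.filter fun y => y.1 = (b, p).1 ∧ (b, p).2 < y.2 ∧ y.2 < (b, p).2 + a) =
      (Ioo p q).image fun x => (b, x) := by
    ext ⟨c, x⟩
    simp only [mem_filter, mem_image, mem_Ioo, Prod.mk.injEq]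
    constructor
    · rintro ⟨h1, rfl, h2, h3⟩
      exact ⟨x, ⟨h2, (h x h2 h3).1 h1⟩, rfl, rfl⟩
    · rintro ⟨y, ⟨h1, h2⟩, rfl, rfl⟩
      exact ⟨(h y h1 (by omega)).2 h2, rfl, h1, by omega⟩
  rw [h1, card_image_of_injective _ (fun x y hxy => (Prod.ext_iff.1 hxy).2), Nat.card_Ioo]

/-! ### coefficients of the weights -/

theorem VQ_wT0 (t : Bool) {n k a : ℕ} {l : Lab} (h : n ≤ k + (l.2 + a)) :
    (wT t n k a l).coeff 0 = if k + (l.2 + a) = n ∧ (t = false ∨ l.1 = false) then
      (if l.1 then 1 else -1) else 0 := by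
  unfold wT wq
  obtain ⟨b, p⟩ := l
  simp only at h
  cases t <;> cases b <;> simp [coeff_X_pow] <;> (try split_ifs) <;> first | omega | rfl | simp

theorem VQ_wT1 (t : Bool) {n k a : ℕ} {l : Lab} (h : n ≤ k + (l.2 + a)) :
    (wT t n k a l).coeff 1 = if k + (l.2 + a) = n + (if t = true ∧ l.1 = true then 0 else 1) then
      (if l.1 then 1 else -1) else 0 := by
  unfold wT wq
  obtain ⟨b, p⟩ := l
  simp only at h
  cases t <;> cases b <;> simp [coeff_X_pow] <;> (try split_ifs) <;> first | omega | rfl | simp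

/-- matrix entries of the ribbon operators -/
noncomputable def VQ_W (t : Bool) (n k a : ℕ) (S S' : St) : ℤ[X] :=
  ∑ l ∈ addable a S, if move a S l = S' then (-1) ^ cnt S l a * wT t n k a l else 0

theorem VQ_Rib (t : Bool) (n k a : ℕ) (u : St →₀ ℤ[X]) (S' : St) :
    Rib (wT t n k a) a u S' = ∑ S ∈ u.support, u S * VQ_W t n k a S S' := by
  unfold Rib
  rw [Finsupp.linearCombination_apply, Finsupp.sum, Finsupp.finsetSum_apply]
  apply sum_congr rfl
  intro S _
  rw [Finsupp.smul_apply, smul_eq_mul]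
  unfold VQ_W
  rw [Finsupp.finsetSum_apply]
  congr 1
  apply sum_congr rfl
  intro l _
  rw [Finsupp.single_apply]

theorem VQ_coeff_ite {p : Prop} [Decidable p] (m : ℕ) (x : ℤ[X]) (j : ℕ) :
    (if p then (-1) ^ m * x else 0 : ℤ[X]).coeff j = if p then (-1) ^ m * x.coeff j else 0 := by
  split_ifs
  · have : ((-1) ^ m : ℤ[X]) = C ((-1) ^ m) := by simp
    rw [this, coeff_C_mul]
  · simp

theorem VQ_W_coeff (t : Bool) (n k a : ℕ) (S S' : St) (j : ℕ) :
    (VQ_W t n k a S S').coeff j =
      ∑ l ∈ addable a S, if move a S l = S' then (-1) ^ cnt S l a * (wT t n k a l).coeff j else 0 := by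
  unfold VQ_W
  rw [finsetSum_coeff]
  exact sum_congr rfl fun l _ => VQ_coeff_ite _ _ _

theorem VQ_hole {n k a : ℕ} {S : St} (hS : SD_Good n k S) {l : Lab} (hl : l ∈ addable a S) :
    n ≤ k + (l.2 + a) := SD_good_hole hS (SD_add hl).2

/-- the lowest move -/
theorem VQ_low {n k a : ℕ} (hka : k + a ≤ n) (ha : 1 ≤ a) {S : St} (hS : SD_Good n k S) (b : Bool) :
    (b, n - k - a) ∈ addable a S ↔ S = VQ_cc n b k := by
  constructor
  · intro h
    have h2 := (SD_add h).2
    simp only at h2
    have e : n - k - a + a = n - k := by omega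
    rw [e] at h2
    exact VQ_col_of_hole hS (by omega) h2
  · rintro rfl
    unfold addable up
    rw [mem_filter, VQ_mem_cc, VQ_mem_cc, if_pos rfl]
    omega

theorem VQ_move {n k a : ℕ} (hka : k + a ≤ n) (ha : 1 ≤ a) (b : Bool) :
    move a (VQ_cc n b k) (b, n - k - a) = VQ_cc n b (k + a) := by
  ext ⟨c, p⟩
  unfold move up
  rw [mem_insert, mem_erase, VQ_mem_cc, VQ_mem_cc]
  simp only [Prod.mk.injEq, ne_eq]
  by_cases hc : c = b
  · subst hc
    simp only [if_pos, true_and]
    omega
  · simp only [hc, if_false, false_and, not_false_eq_true, true_and, false_or]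

theorem VQ_cnt_low {n k a : ℕ} (hka : k + a ≤ n) (ha : 1 ≤ a) (b : Bool) :
    cnt (VQ_cc n b k) (b, n - k - a) a = a - 1 := by
  rw [VQ_cnt (q := n - k) (by omega) (by omega)]
  · omega
  · intro x h1 h2
    rw [VQ_mem_cc, if_pos rfl]
    omega

theorem VQ_pow {a : ℕ} (ha : 1 ≤ a) : (-1 : ℤ) ^ (a - 1) = - (-1) ^ a := by
  obtain ⟨b, rfl⟩ : ∃ b, a = b + 1 := ⟨a - 1, by omega⟩
  rw [Nat.add_sub_cancel, pow_succ]; ring

theorem VQ_sq (a : ℕ) : (-1 : ℤ) ^ a * (-1) ^ a = 1 := by
  rw [← mul_pow]; simp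

/-- coefficient `0` of the matrix entries -/
theorem VQ_W0 (t : Bool) {n k a : ℕ} (hka : k + a ≤ n) (ha : 1 ≤ a) {S : St} (hS : SD_Good n k S)
    (S' : St) : (VQ_W t n k a S S').coeff 0 =
      (if S = VQ_cc n false k then (if S' = VQ_cc n false (k + a) then (-1) ^ a else 0) else 0) +
      (if S = VQ_cc n true k then (if t = false ∧ S' = VQ_cc n true (k + a) then -(-1) ^ a else 0)
        else 0) := by
  rw [VQ_W_coeff]
  have h1 : ∀ l ∈ addable a S, (if move a S l = S' then
      (-1) ^ cnt S l a * (wT t n k a l).coeff 0 else 0) =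
      (if l = (false, n - k - a) then (if S' = VQ_cc n false (k + a) then (-1) ^ a else 0) else 0) +
      (if l = (true, n - k - a) then (if t = false ∧ S' = VQ_cc n true (k + a) then -(-1) ^ a else 0)
        else 0) := by
    intro l hl
    rw [VQ_wT0 t (VQ_hole hS hl)]
    by_cases h2 : l.2 = n - k - a
    · obtain ⟨b, p⟩ := l
      simp only at h2
      subst h2
      have h3 := (VQ_low hka ha hS b).1 hl
      rw [h3, VQ_move hka ha, VQ_cnt_low hka ha, VQ_pow ha]
      have e : k + (n - k - a + a) = n := by omega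
      simp only [e, Prod.mk.injEq, and_true, true_and]
      cases b
      · simp only [or_true, if_true, Bool.false_eq_true, if_false, add_zero, eq_comm (a := S')]
        split_ifs
        · ring
        · rfl
      · simp only [Bool.true_eq_false, or_false, if_true, if_false, zero_add, eq_comm (a := S')]
        by_cases h4 : t = false
        · simp [h4]
        · simp [h4]
    · have h3 : ¬ (k + (l.2 + a) = n) := by omega
      have h4 : l ≠ (false, n - k - a) := fun h => h2 (by rw [h])
      have h5 : l ≠ (true, n - k - a) := fun h => h2 (by rw [h])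
      rw [if_neg h4, if_neg h5, if_neg (show ¬ (k + (l.2 + a) = n ∧ (t = false ∨ l.1 = false)) from
        fun h => h3 h.1)]
      simp
  rw [sum_congr rfl h1, sum_add_distrib, sum_ite_eq', sum_ite_eq']
  simp only [VQ_low hka ha hS]

/-- the only ribbon that ends at a column -/
theorem VQ_pre {n k a : ℕ} (hka : k + a ≤ n) (ha : 1 ≤ a) {S : St} {b : Bool} {l : Lab}
    (hl : l ∈ addable a S) (h : move a S l = VQ_cc n b (k + a)) : l = (b, n - k - a) := by
  have h1 : up a l ∈ VQ_cc n b (k + a) := by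
    rw [← h]; unfold move; exact mem_insert_self _ _
  have h2 : l ∉ VQ_cc n b (k + a) := by
    rw [← h]
    unfold move
    rw [mem_insert]
    push Not
    refine ⟨?_, notMem_erase _ _⟩
    intro e
    have := congrArg Prod.snd e
    simp only [up] at this
    omega
  obtain ⟨c, p⟩ := l
  simp only [up] at h1
  rw [VQ_mem_cc] at h1 h2
  by_cases hc : c = b
  · subst hc
    rw [if_pos rfl] at h1 h2
    rw [Prod.mk.injEq]
    exact ⟨rfl, by omega⟩
  · rw [if_neg hc] at h1 h2
    omega

/-- coefficient `1` of the matrix entries ending at a column -/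
theorem VQ_W1_col (t : Bool) {n k a : ℕ} (hka : k + a ≤ n) (ha : 1 ≤ a) {S : St}
    (hS : SD_Good n k S) (b : Bool) (hb : t = true → b = false) :
    (VQ_W t n k a S (VQ_cc n b (k + a))).coeff 1 = 0 := by
  rw [VQ_W_coeff]
  apply sum_eq_zero
  intro l hl
  by_cases h : move a S l = VQ_cc n b (k + a)
  · have h1 := VQ_pre hka ha hl h
    rw [if_pos h, VQ_wT1 t (VQ_hole hS hl), h1]
    simp only
    rw [if_neg, mul_zero]
    have h2 : ¬ (t = true ∧ b = true) := by
      rintro ⟨h3, h4⟩
      rw [hb h3] at h4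
      exact Bool.false_ne_true h4
    rw [if_neg h2]
    omega
  · rw [if_neg h]

/-- coefficient `1` of the matrix entries starting from a column -/
theorem VQ_W1_sign (t : Bool) {n k a : ℕ} (hka : k + a ≤ n) (ha : 1 ≤ a) (b : Bool)
    (hS : SD_Good n k (VQ_cc n b k)) (S' : St) (hb : (t = true ∧ b = false) ∨ (t = false ∧ 1 ≤ k)) :
    (if b then -1 else 1) * (-1) ^ a * (VQ_W t n k a (VQ_cc n b k) S').coeff 1 ≤ 0 := by
  rw [VQ_W_coeff, mul_sum]
  apply sum_nonpos
  intro l hl
  by_cases h1 : move a (VQ_cc n b k) l = S'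
  swap
  · rw [if_neg h1, mul_zero]
  rw [if_pos h1, VQ_wT1 t (VQ_hole hS hl)]
  by_cases h2 : k + (l.2 + a) = n + (if t = true ∧ l.1 = true then 0 else 1)
  swap
  · rw [if_neg h2, mul_zero, mul_zero]
  rw [if_pos h2]
  have hl1 : l ∈ VQ_cc n b k := (mem_filter.1 hl).1
  have hl2 : up a l ∉ VQ_cc n b k := (mem_filter.1 hl).2
  have hsq := VQ_sq a
  obtain ⟨c, p⟩ := l
  simp only [up] at h2 hl2 ⊢
  rw [VQ_mem_cc] at hl1 hl2
  rcases hb with ⟨rfl, rfl⟩ | ⟨rfl, hk⟩
  · cases c
    · simp only [Bool.false_eq_true, and_false, if_false, if_true] at h2 hl1 hl2 ⊢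
      have h3 : k = 0 := by omega
      subst h3
      have h4 : cnt (VQ_cc n false 0) (false, p) a = a - 2 := by
        rw [VQ_cnt (q := n) (by omega) (by omega)]
        · omega
        · intro x h1 h2
          rw [VQ_mem_cc]
          simp only [ite_self]
          omega
      rw [h4]
      have h5 : (-1 : ℤ) ^ (a - 2) = (-1) ^ a := by
        obtain ⟨d, rfl⟩ : ∃ d, a = d + 2 := ⟨a - 2, by omega⟩
        rw [Nat.add_sub_cancel, pow_add]; norm_num
      rw [h5]
      linarith
    · simp only [and_true, if_true, Bool.true_eq_false, if_false, add_zero, Nat.sub_zero,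
        Bool.false_eq_true] at h2 hl1 hl2 ⊢
      have h3 : k = 0 := by omega
      subst h3
      have h4 : cnt (VQ_cc n false 0) (true, p) a = a - 1 := by
        rw [VQ_cnt (q := n) (by omega) (by omega)]
        · omega
        · intro x h1 h2
          rw [VQ_mem_cc]
          simp only [ite_self]
          omega
      rw [h4, VQ_pow ha]
      linarith
  · simp only [Bool.false_eq_true, false_and, if_false] at h2
    by_cases hcb : c = b
    · rw [if_pos hcb] at hl2
      omega
    · rw [if_neg hcb] at hl1 hl2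
      have h3 : k = 1 := by omega
      subst h3
      have h4 : cnt (VQ_cc n b 1) (c, p) a = a - 1 := by
        rw [VQ_cnt (q := n) (by omega) (by omega)]
        · omega
        · intro x h1 h2
          rw [VQ_mem_cc, if_neg hcb]
          omega
      rw [h4, VQ_pow ha]
      cases b <;> cases c <;> simp_all

/-! ### vectors -/

theorem VQ_fockT_append (t : Bool) (m a : ℕ) (l : List ℕ) : ∀ (k : ℕ) (u : St →₀ ℤ[X]),
    fockT t m k (l ++ [a]) u = Rib (wT t m (k + l.sum) a) a (fockT t m k l u) := by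
  induction l with
  | nil => intro k u; simp [fockT]
  | cons b l ih =>
    intro k u
    simp only [List.cons_append, fockT, List.sum_cons]
    rw [ih, add_assoc]

theorem VQ_vecT_append (t : Bool) (m a : ℕ) (l : List ℕ) :
    vecT t m (l ++ [a]) = Rib (wT t m l.sum a) a (vecT t m l) := by
  unfold vecT
  rw [VQ_fockT_append, zero_add]

theorem VQ_good_Rib (t : Bool) {n k a : ℕ} {u : St →₀ ℤ[X]} (hu : ∀ S ∈ u.support, SD_Good n k S) :
    ∀ S ∈ (Rib (wT t n k a) a u).support, SD_Good n (k + a) S := by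
  intro S' hS'
  rw [Finsupp.mem_support_iff, VQ_Rib] at hS'
  obtain ⟨S, hS, h1⟩ := exists_ne_zero_of_sum_ne_zero hS'
  have h2 := right_ne_zero_of_mul h1
  unfold VQ_W at h2
  obtain ⟨l, hl, h3⟩ := exists_ne_zero_of_sum_ne_zero h2
  by_cases h4 : move a S l = S'
  · rw [← h4]; exact SD_good_move (hu S hS) hl
  · rw [if_neg h4] at h3; exact absurd rfl h3

/-- the sum with the values of `u` at one state -/
theorem VQ_sum_one (u : St →₀ ℤ[X]) (j : ℕ) (c : St) (x : ℤ) :
    ∑ S ∈ u.support, (u S).coeff j * (if S = c then x else 0) = (u c).coeff j * x := by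
  simp only [mul_ite, mul_zero]
  rw [sum_ite_eq']
  split_ifs with h
  · rfl
  · rw [Finsupp.notMem_support_iff.1 h]; simp

/-- the invariants -/
def VQ_inv (t : Bool) (n : ℕ) (β : List ℕ) : Prop :=
  (∀ S ∈ (vecT t n β).support, SD_Good n β.sum S) ∧
  (∀ S, (vecT t n β S).coeff 0 = (if S = VQ_cc n false β.sum then (-1) ^ β.sum else 0) +
    (if t = false ∧ β ≠ [] ∧ S = VQ_cc n true β.sum then (-1) ^ (β.sum + β.length) else 0)) ∧
  (vecT t n β (VQ_cc n false β.sum)).coeff 1 = 0 ∧
  (t = false → (vecT t n β (VQ_cc n true β.sum)).coeff 1 = 0) ∧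
  ((t = true ∨ Even β.length) → ∀ S, (-1) ^ β.sum * (vecT t n β S).coeff 1 ≤ 0)

theorem VQ_base (t : Bool) (n : ℕ) : VQ_inv t n [] := by
  have h0 : vecT t n [] = Finsupp.single (vac n) 1 := rfl
  have h1 : ∀ S, (vecT t n [] S).coeff 1 = 0 := by
    intro S
    rw [h0, Finsupp.single_apply]
    split_ifs
    · rw [coeff_one]; norm_num
    · simp
  refine ⟨?_, ?_, h1 _, fun _ => h1 _, fun _ S => by rw [h1]; simp⟩
  · intro S hS
    rw [h0, Finsupp.mem_support_iff, Finsupp.single_apply] at hS
    by_cases h : vac n = S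
    · rw [← h]; exact SD_good_vac n
    · rw [if_neg h] at hS; exact absurd rfl hS
  · intro S
    rw [h0, Finsupp.single_apply]
    simp only [List.sum_nil, pow_zero, ne_eq, not_true, false_and, and_false, if_false, add_zero]
    rw [← VQ_vac n false]
    by_cases h : vac n = S
    · rw [if_pos h, if_pos h.symm]; simp
    · rw [if_neg h, if_neg (fun e => h e.symm)]; simp

theorem VQ_step (t : Bool) (n : ℕ) (β : List ℕ) (a : ℕ) (ha : 1 ≤ a) (hka : β.sum + a ≤ n)
    (hpos : ∀ b ∈ β, 1 ≤ b) (h : VQ_inv t n β) : VQ_inv t n (β ++ [a]) := by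
  obtain ⟨hG, h0, h1, h1', h2⟩ := h
  set u := vecT t n β with hu
  set k := β.sum with hk
  have hsum : (β ++ [a]).sum = k + a := by simp [hk]
  have hlen : (β ++ [a]).length = β.length + 1 := by simp
  have hne : β ++ [a] ≠ [] := by simp
  have hv : vecT t n (β ++ [a]) = Rib (wT t n k a) a u := VQ_vecT_append t n a β
  have hk1 : β ≠ [] → 1 ≤ k := by
    intro hβ
    obtain ⟨b, hb⟩ := List.exists_mem_of_ne_nil β hβ
    have h3 := hpos b hb
    have h4 := List.single_le_sum (fun x _ => Nat.zero_le x) b hb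
    omega
  -- coefficient 0
  have e0 : ∀ S', (Rib (wT t n k a) a u S').coeff 0 =
      (u (VQ_cc n false k)).coeff 0 * (if S' = VQ_cc n false (k + a) then (-1) ^ a else 0) +
      (u (VQ_cc n true k)).coeff 0 *
        (if t = false ∧ S' = VQ_cc n true (k + a) then -(-1) ^ a else 0) := by
    intro S'
    rw [VQ_Rib, finsetSum_coeff, ← VQ_sum_one, ← VQ_sum_one, ← sum_add_distrib]
    apply sum_congr rfl
    intro S hS
    rw [mul_coeff_zero, VQ_W0 t hka ha (hG S hS), mul_add]
  have e1 : ∀ S', (Rib (wT t n k a) a u S').coeff 1 =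
      ∑ S ∈ u.support, (u S).coeff 0 * (VQ_W t n k a S S').coeff 1 := by
    intro S'
    rw [VQ_Rib, finsetSum_coeff]
    have : ∀ S ∈ u.support, (u S * VQ_W t n k a S S').coeff 1 =
        (u S).coeff 0 * (VQ_W t n k a S S').coeff 1 +
        ((u S).coeff 1 * (if S = VQ_cc n false k then
          (if S' = VQ_cc n false (k + a) then (-1) ^ a else 0) else 0) +
        (u S).coeff 1 * (if S = VQ_cc n true k then
          (if t = false ∧ S' = VQ_cc n true (k + a) then -(-1) ^ a else 0) else 0)) := by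
      intro S hS
      rw [mul_coeff_one, VQ_W0 t hka ha (hG S hS), mul_add]
    rw [sum_congr rfl this, sum_add_distrib, sum_add_distrib, VQ_sum_one, VQ_sum_one, h1]
    by_cases ht : t = false
    · rw [h1' ht]; simp
    · simp [ht]
  have hF : (u (VQ_cc n false k)).coeff 0 = (-1) ^ k := by
    rw [h0, if_pos rfl, if_neg, add_zero]
    rintro ⟨-, h3, h4⟩
    exact VQ_cc_ne (hk1 h3) (by omega) Bool.false_ne_true h4
  have hT : t = false → (u (VQ_cc n true k)).coeff 0 = (-1) ^ (k + β.length) := by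
    intro ht
    rw [h0]
    by_cases hβ : β = []
    · have hk0 : k = 0 := by rw [hk, hβ]; rfl
      rw [hk0, if_pos (by rw [← VQ_vac, ← VQ_vac]), if_neg (fun h => h.2.1 hβ), hβ]
      simp
    · rw [if_neg (fun h => VQ_cc_ne (hk1 hβ) (by omega) Bool.false_ne_true h.symm),
        if_pos ⟨ht, hβ, rfl⟩, zero_add]
  have hsq := VQ_sq k
  unfold VQ_inv
  rw [hsum, hlen, hv]
  refine ⟨VQ_good_Rib t hG, ?_, ?_, ?_, ?_⟩
  · intro S'
    rw [e0, hF]
    congr 1
    · split_ifs
      · rw [pow_add]
      · rw [mul_zero]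
    · by_cases h3 : t = false ∧ S' = VQ_cc n true (k + a)
      · rw [if_pos h3, if_pos ⟨h3.1, hne, h3.2⟩, hT h3.1]
        simp only [pow_add, pow_one]
        ring
      · rw [if_neg h3, if_neg (fun h => h3 ⟨h.1, h.2.2⟩), mul_zero]
  · rw [e1]
    apply sum_eq_zero
    intro S hS
    rw [VQ_W1_col t hka ha (hG S hS) false (fun _ => rfl), mul_zero]
  · intro ht
    rw [e1]
    apply sum_eq_zero
    intro S hS
    rw [VQ_W1_col t hka ha (hG S hS) true (fun h => absurd (ht ▸ h) Bool.false_ne_true), mul_zero]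
  · intro hpar S'
    rw [e1, mul_sum]
    apply sum_nonpos
    intro S hS
    have hodd : t = false → ¬ Even β.length ∧ 1 ≤ k := by
      intro ht
      have h3 : ¬ Even β.length := by
        rcases hpar with h4 | h4
        · rw [ht] at h4; exact absurd h4 Bool.false_ne_true
        · rw [Nat.even_add_one] at h4; exact h4
      exact ⟨h3, hk1 (fun h4 => h3 (by rw [h4]; simp))⟩
    by_cases hSF : S = VQ_cc n false k
    · have h3 := VQ_W1_sign t hka ha false (hSF ▸ hG S hS) S' (by
        cases t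
        · exact Or.inr ⟨rfl, (hodd rfl).2⟩
        · exact Or.inl ⟨rfl, rfl⟩)
      rw [hSF, hF]
      simp only [Bool.false_eq_true, if_false, one_mul] at h3
      calc (-1 : ℤ) ^ (k + a) * ((-1) ^ k * (VQ_W t n k a (VQ_cc n false k) S').coeff 1) =
          ((-1) ^ k * (-1) ^ k) * ((-1) ^ a * (VQ_W t n k a (VQ_cc n false k) S').coeff 1) := by
            rw [pow_add]; ring
        _ ≤ 0 := by rw [hsq, one_mul]; exact h3
    · by_cases hST : t = false ∧ S = VQ_cc n true k
      · obtain ⟨ht, hST⟩ := hST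
        have h3 := VQ_W1_sign t hka ha true (hST ▸ hG S hS) S' (Or.inr ⟨ht, (hodd ht).2⟩)
        rw [hST, hT ht]
        simp only [if_true] at h3
        have h4 : (-1 : ℤ) ^ β.length = -1 := Odd.neg_one_pow (Nat.not_even_iff_odd.1 (hodd ht).1)
        calc (-1 : ℤ) ^ (k + a) * ((-1) ^ (k + β.length) *
              (VQ_W t n k a (VQ_cc n true k) S').coeff 1) =
            ((-1) ^ k * (-1) ^ k) * ((-1) ^ β.length * (-1) ^ a *
              (VQ_W t n k a (VQ_cc n true k) S').coeff 1) := by
              rw [pow_add, pow_add]; ring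
          _ ≤ 0 := by rw [hsq, one_mul, h4]; exact h3
      · rw [h0, if_neg hSF, if_neg (fun h => hST ⟨h.1, h.2.2⟩)]
        simp

theorem VQ_all (t : Bool) (n : ℕ) (β : List ℕ) : (∀ a ∈ β, 1 ≤ a) → β.sum ≤ n → VQ_inv t n β := by
  induction β using List.reverseRecOn with
  | nil => intro _ _; exact VQ_base t n
  | append_singleton β a ih =>
    intro h1 h2
    rw [List.sum_append, List.sum_singleton] at h2
    exact VQ_step t n β a (h1 a (by simp)) h2 (fun b hb => h1 b (by simp [hb]))
      (ih (fun b hb => h1 b (by simp [hb])) (by omega))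

/-- the two lowest coefficients of the negative part -/
theorem VQ : VQ_stmt := by
  intro t n β h1 _ hn hpar
  obtain ⟨-, h0, -, -, h2⟩ := VQ_all t n β h1 hn
  have hsq := VQ_sq β.sum
  have hF : (vecT t n β (VQ_cc n false β.sum)).coeff 0 = (-1) ^ β.sum := by
    rw [h0, if_pos rfl, if_neg, add_zero]
    rintro ⟨-, h3, h4⟩
    obtain ⟨b, hb⟩ := List.exists_mem_of_ne_nil β h3
    have h5 := h1 b hb
    have h6 := List.single_le_sum (fun x _ => Nat.zero_le x) b hb
    exact VQ_cc_ne (by omega) hn Bool.false_ne_true h4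
  refine ⟨(-1) ^ β.sum, neg_one_pow_eq_or ℤ _, fun S => ⟨?_, h2 hpar S⟩, ?_⟩
  · rw [h0, mul_add]
    apply add_nonneg
    · split_ifs
      · rw [hsq]; norm_num
      · simp
    · split_ifs with h3
      · have h4 : Even β.length := by
          rcases hpar with h5 | h5
          · rw [h3.1] at h5; exact absurd h5 Bool.false_ne_true
          · exact h5
        rw [pow_add, Even.neg_one_pow h4, mul_one, hsq]; norm_num
      · simp
  · have h3 : col n 0 β.sum = VQ_cc n false β.sum := rfl
    rw [h3, hF, hsq]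

end Pool.Agent.helper27.PC
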